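import Pool.Agent.W785.FD.Stms

set_option autoImplicit false

open MeasureTheory Metric Set Filter
open scoped ENNReal NNReal Topology

namespace Pool.Agent.W636.FD

open Pool.Agent.W785.FD

theorem cover (k0 : ℕ) : Ioo (0 : ℝ) 1 ⊆ Icc ((1 / 2 : ℝ) ^ k0) 1 ∪
    ⋃ j : ℕ, Ioc ((1 / 2 : ℝ) ^ (k0 + j + 1)) ((1 / 2 : ℝ) ^ (k0 + j)) := by
  intro r hr
  obtain ⟨h0, h1⟩ := hr
  by_cases h : (1 / 2 : ℝ) ^ k0 ≤ r
  · left; exact ⟨h, h1.le⟩
  · right
    push Not at h
    have hp : (0 : ℝ) < (1 / 2) ^ k0 := by positivity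
    obtain ⟨n, hn1, hn2⟩ := exists_nat_pow_near_of_lt_one (x := r / (1 / 2) ^ k0) (y := (1 / 2 : ℝ))
      (div_pos h0 hp) ((div_le_one hp).2 h.le) (by norm_num) (by norm_num)
    rw [lt_div_iff₀ hp] at hn1
    rw [div_le_iff₀ hp] at hn2
    refine mem_iUnion.2 ⟨n, ?_, ?_⟩
    · have : (1 / 2 : ℝ) ^ (k0 + n + 1) = (1 / 2) ^ (n + 1) * (1 / 2) ^ k0 := by
        rw [← pow_add]; congr 1; omega
      rw [this]; exact hn1
    · have : (1 / 2 : ℝ) ^ (k0 + n) = (1 / 2) ^ n * (1 / 2) ^ k0 := by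
        rw [← pow_add]; congr 1; omega
      rw [this]; exact hn2

/-- comparison of the Wiener integral with a dyadic sum -/
theorem dyadic (F : ℝ → ℝ≥0∞) (a : ℕ → ℝ≥0∞) (q : ℝ) (hq : 0 < q) (c C : ℝ≥0∞) (hc : c ≠ 0)
    (hC : C ≠ ∞) (k0 : ℕ) (ha : ∀ k, a k ≠ ∞)
    (hlow : ∀ k, k0 ≤ k → ∀ r ∈ Ico ((1 / 2 : ℝ) ^ (k + 1)) ((1 / 2) ^ k), c * a (k + 1) ≤ F r)
    (hup : ∀ k, k0 ≤ k → ∀ r ∈ Ioc ((1 / 2 : ℝ) ^ (k + 1)) ((1 / 2) ^ k), F r ≤ C * a k)
    (hone : ∀ r ∈ Ioo (0 : ℝ) 2, F r ≤ 1) :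
    (∫⁻ r in Ioo (0 : ℝ) 1, F r ^ q / ENNReal.ofReal r) < ∞ ↔ ∑' k, a k ^ q ≠ ∞ := by
  have hs : ∀ k : ℕ, (0 : ℝ) < (1 / 2) ^ k := fun k => by positivity
  have hsucc : ∀ k : ℕ, (1 / 2 : ℝ) ^ (k + 1) = (1 / 2) ^ k / 2 := fun k => by
    rw [pow_succ]; ring
  constructor
  · intro hfin
    have hd : Pairwise (Function.onFun Disjoint (fun j : ℕ =>
        Ico ((1 / 2 : ℝ) ^ (k0 + (j + 1))) ((1 / 2 : ℝ) ^ (k0 + j)))) := by
      have hanti : Antitone (fun j : ℕ => (1 / 2 : ℝ) ^ (k0 + j)) := by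
        intro i j hij
        exact pow_le_pow_of_le_one (by norm_num) (by norm_num) (by omega)
      exact hanti.pairwise_disjoint_on_Ico_succ
    have hsub : (⋃ j : ℕ, Ico ((1 / 2 : ℝ) ^ (k0 + (j + 1))) ((1 / 2 : ℝ) ^ (k0 + j))) ⊆
        Ioo (0 : ℝ) 1 := by
      intro r hr
      obtain ⟨j, h1, h2⟩ := mem_iUnion.1 hr
      refine ⟨(hs _).trans_le h1, h2.trans_le ?_⟩
      exact pow_le_one₀ (by norm_num) (by norm_num)
    have h1 : ∑' j : ℕ, ∫⁻ r in Ico ((1 / 2 : ℝ) ^ (k0 + (j + 1))) ((1 / 2 : ℝ) ^ (k0 + j)),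
        F r ^ q / ENNReal.ofReal r ≤ ∫⁻ r in Ioo (0 : ℝ) 1, F r ^ q / ENNReal.ofReal r := by
      rw [← lintegral_iUnion (fun j => measurableSet_Ico) hd]
      exact lintegral_mono_set hsub
    have h2 : ∀ j : ℕ, (c ^ q / 2) * a (k0 + j + 1) ^ q ≤
        ∫⁻ r in Ico ((1 / 2 : ℝ) ^ (k0 + (j + 1))) ((1 / 2 : ℝ) ^ (k0 + j)),
        F r ^ q / ENNReal.ofReal r := by
      intro j
      set s : ℝ := (1 / 2 : ℝ) ^ (k0 + (j + 1)) with hsdef
      have hs0 : 0 < s := hs _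
      have h2s : (1 / 2 : ℝ) ^ (k0 + j) = 2 * s := by
        rw [hsdef, ← add_assoc, hsucc]; ring
      rw [h2s]
      have h3 : ∀ r ∈ Ico s (2 * s), (c * a (k0 + j + 1)) ^ q / ENNReal.ofReal (2 * s) ≤
          F r ^ q / ENNReal.ofReal r := by
        intro r hr
        have h4 := hlow (k0 + j) (by omega) r (by
          rw [h2s, show k0 + j + 1 = k0 + (j + 1) by ring, ← hsdef]; exact hr)
        exact ENNReal.div_le_div (ENNReal.rpow_le_rpow h4 hq.le)
          (ENNReal.ofReal_le_ofReal hr.2.le)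
      calc (c ^ q / 2) * a (k0 + j + 1) ^ q
          = (c * a (k0 + j + 1)) ^ q / ENNReal.ofReal (2 * s) * ENNReal.ofReal s := by
            rw [ENNReal.mul_rpow_of_nonneg _ _ hq.le, ENNReal.ofReal_mul (by norm_num)]
            have e1 : ENNReal.ofReal s ≠ 0 := by
              rw [Ne, ENNReal.ofReal_eq_zero]; push Not; exact hs0
            have e2 : ENNReal.ofReal s ≠ ∞ := ENNReal.ofReal_ne_top
            have e3 : ENNReal.ofReal 2 = 2 := by norm_num
            rw [e3, div_eq_mul_inv, div_eq_mul_inv, ENNReal.mul_inv (Or.inl (by norm_num))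
              (Or.inl (by norm_num))]
            calc c ^ q * 2⁻¹ * a (k0 + j + 1) ^ q
                = c ^ q * a (k0 + j + 1) ^ q * 2⁻¹ * 1 := by ring
              _ = c ^ q * a (k0 + j + 1) ^ q * 2⁻¹ * ((ENNReal.ofReal s)⁻¹ * ENNReal.ofReal s) := by
                  rw [ENNReal.inv_mul_cancel e1 e2]
              _ = _ := by ring
        _ = ∫⁻ r in Ico s (2 * s), (c * a (k0 + j + 1)) ^ q / ENNReal.ofReal (2 * s) := by
            rw [setLIntegral_const, Real.volume_Ico]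
            congr 2; ring
        _ ≤ _ := setLIntegral_mono' measurableSet_Ico h3
    have h3 : ∑' j : ℕ, (c ^ q / 2) * a (k0 + j + 1) ^ q < ∞ :=
      ((ENNReal.tsum_le_tsum h2).trans h1).trans_lt hfin
    rw [ENNReal.tsum_mul_left] at h3
    have hcq : c ^ q / 2 ≠ 0 := by
      rw [Ne, ENNReal.div_eq_zero_iff]
      push Not
      exact ⟨by rw [Ne, ENNReal.rpow_eq_zero_iff]; push Not; exact ⟨fun h => absurd h hc,
        fun _ => hq.le⟩, by norm_num⟩
    have h4 : ∑' j : ℕ, a (k0 + j + 1) ^ q ≠ ∞ := by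
      intro h
      rw [h, ENNReal.mul_top hcq] at h3
      exact lt_irrefl _ h3
    have h5 : (∑ i ∈ Finset.range (k0 + 1), a i ^ q) + ∑' j : ℕ, a (j + (k0 + 1)) ^ q =
        ∑' j : ℕ, a j ^ q := Summable.sum_add_tsum_nat_add' ENNReal.summable
    rw [← h5]
    refine ENNReal.add_ne_top.2 ⟨?_, ?_⟩
    · refine ENNReal.sum_ne_top.2 fun i _ => ?_
      exact ENNReal.rpow_ne_top_of_nonneg hq.le (ha i)
    · have : (fun j : ℕ => a (j + (k0 + 1)) ^ q) = fun j => a (k0 + j + 1) ^ q := by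
        funext j; congr 2; ring
      rw [this]; exact h4
  · intro hsum
    have h1 : ∫⁻ r in Ioo (0 : ℝ) 1, F r ^ q / ENNReal.ofReal r ≤
        (∫⁻ r in Icc ((1 / 2 : ℝ) ^ k0) 1, F r ^ q / ENNReal.ofReal r) +
        ∑' j : ℕ, ∫⁻ r in Ioc ((1 / 2 : ℝ) ^ (k0 + j + 1)) ((1 / 2 : ℝ) ^ (k0 + j)),
          F r ^ q / ENNReal.ofReal r := by
      refine (lintegral_mono_set (cover k0)).trans ?_
      refine (lintegral_union_le _ _ _).trans ?_
      gcongr
      exact lintegral_iUnion_le _ _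
    refine h1.trans_lt (ENNReal.add_lt_top.2 ⟨?_, ?_⟩)
    · have h2 : ∀ r ∈ Icc ((1 / 2 : ℝ) ^ k0) 1, F r ^ q / ENNReal.ofReal r ≤
          1 / ENNReal.ofReal ((1 / 2 : ℝ) ^ k0) := by
        intro r hr
        have h3 := hone r ⟨(hs k0).trans_le hr.1, by linarith [hr.2]⟩
        have h4 : F r ^ q ≤ 1 := ENNReal.rpow_le_one h3 hq.le
        exact ENNReal.div_le_div h4 (ENNReal.ofReal_le_ofReal hr.1)
      refine (setLIntegral_mono' measurableSet_Icc h2).trans_lt ?_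
      rw [setLIntegral_const, Real.volume_Icc]
      refine ENNReal.mul_lt_top ?_ ENNReal.ofReal_lt_top
      refine ENNReal.div_lt_top (by norm_num) ?_
      rw [Ne, ENNReal.ofReal_eq_zero]; push Not; exact hs k0
    · have h2 : ∀ j : ℕ, ∫⁻ r in Ioc ((1 / 2 : ℝ) ^ (k0 + j + 1)) ((1 / 2 : ℝ) ^ (k0 + j)),
          F r ^ q / ENNReal.ofReal r ≤ C ^ q * a (k0 + j) ^ q := by
        intro j
        set s : ℝ := (1 / 2 : ℝ) ^ (k0 + j + 1) with hsdef
        have hs0 : 0 < s := hs _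
        have h2s : (1 / 2 : ℝ) ^ (k0 + j) = 2 * s := by
          rw [hsdef, hsucc]; ring
        rw [h2s]
        have h3 : ∀ r ∈ Ioc s (2 * s), F r ^ q / ENNReal.ofReal r ≤
            (C * a (k0 + j)) ^ q / ENNReal.ofReal s := by
          intro r hr
          have h4 := hup (k0 + j) (by omega) r (by rw [h2s]; exact hr)
          exact ENNReal.div_le_div (ENNReal.rpow_le_rpow h4 hq.le)
            (ENNReal.ofReal_le_ofReal hr.1.le)
        refine (setLIntegral_mono' measurableSet_Ioc h3).trans ?_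
        rw [setLIntegral_const, Real.volume_Ioc, show 2 * s - s = s by ring,
          ENNReal.mul_rpow_of_nonneg _ _ hq.le]
        have e1 : ENNReal.ofReal s ≠ 0 := by
          rw [Ne, ENNReal.ofReal_eq_zero]; push Not; exact hs0
        rw [ENNReal.div_mul_cancel e1 ENNReal.ofReal_ne_top]
      refine (ENNReal.tsum_le_tsum h2).trans_lt ?_
      rw [ENNReal.tsum_mul_left]
      refine ENNReal.mul_lt_top (ENNReal.rpow_lt_top_of_nonneg hq.le hC) ?_
      have h5 : (∑ i ∈ Finset.range k0, a i ^ q) + ∑' j : ℕ, a (j + k0) ^ q =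
          ∑' j : ℕ, a j ^ q := Summable.sum_add_tsum_nat_add' ENNReal.summable
      have h6 : (fun j : ℕ => a (j + k0) ^ q) = fun j => a (k0 + j) ^ q := by
        funext j; rw [add_comm]
      rw [h6] at h5
      have h7 : ∑' j : ℕ, a (k0 + j) ^ q ≤ ∑' j : ℕ, a j ^ q := by
        rw [← h5]; exact le_add_self
      exact h7.trans_lt (lt_top_iff_ne_top.2 hsum)

theorem main {X : Type*} [MetricSpace X] [ProperSpace X] [MeasurableSpace X] [BorelSpace X]
    (μ : Measure X) (p D : ℝ) (hp : 1 < p) (hD : Dbl μ D) (h1 : S_CUB μ p) (h2 : S_CLB μ p)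
    (h3 : S_CMP μ p) (h4 : S_MONO μ p) : S_THIN μ p := by
  intro E x
  obtain ⟨K1, hK1, hub⟩ := h1
  obtain ⟨K2, hK2, h2⟩ := h2
  obtain ⟨K3, hK3, h3⟩ := h3
  obtain ⟨r1, hr1, hlb⟩ := h2 x
  obtain ⟨r2, hr2, hcmp⟩ := h3 x
  have hq : 0 < 1 / (p - 1) := by
    have : 0 < p - 1 := by linarith
    positivity
  have hp0 : 0 < p := by linarith
  have hD0 : 0 < D := by linarith [hD.one_le]
  obtain ⟨k0, hk0⟩ := exists_pow_lt_of_lt_one (lt_min hr1 hr2) (by norm_num : (1 / 2 : ℝ) < 1)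
  have hs : ∀ k : ℕ, (0 : ℝ) < (1 / 2) ^ k := fun k => by positivity
  have hsk : ∀ k, k0 ≤ k → (1 / 2 : ℝ) ^ k < r1 ∧ (1 / 2 : ℝ) ^ k < r2 := by
    intro k hk
    have : (1 / 2 : ℝ) ^ k ≤ (1 / 2) ^ k0 := pow_le_pow_of_le_one (by norm_num) (by norm_num) hk
    exact ⟨this.trans_lt (hk0.trans_le (min_le_left _ _)),
      this.trans_lt (hk0.trans_le (min_le_right _ _))⟩
  have hsucc : ∀ k : ℕ, (1 / 2 : ℝ) ^ k = 2 * (1 / 2) ^ (k + 1) := fun k => by
    rw [pow_succ]; ring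
  have hBfin : ∀ r : ℝ, 0 < r → capB μ p (ball x r) x (2 * r) ≠ ∞ := by
    intro r hr
    refine ((hub x r hr).trans_lt (ENNReal.mul_lt_top ENNReal.ofReal_lt_top (hD.fin x r))).ne
  have hmpos : ∀ s : ℝ, 0 < s → μ (ball x s) ≠ 0 := fun s hs => (hD.pos x s hs).ne'
  have hmfin : ∀ s : ℝ, μ (ball x s) ≠ ∞ := fun s => (hD.fin x s).ne
  unfold Thin
  refine dyadic (fun r => capB μ p (E ∩ ball x r) x (2 * r) / capB μ p (ball x r) x (2 * r))
    (aa μ p E x) (1 / (p - 1)) hq (ENNReal.ofReal (K1 * D * K3))⁻¹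
    (ENNReal.ofReal (K3 * (K2 * D)))
    (by rw [Ne, ENNReal.inv_eq_zero]; exact ENNReal.ofReal_ne_top) ENNReal.ofReal_ne_top k0
    ?_ ?_ ?_ ?_
  · intro k
    unfold aa
    refine (ENNReal.div_lt_top (ENNReal.mul_ne_top ?_ ENNReal.ofReal_ne_top) (hmpos _ (hs k))).ne
    refine ne_top_of_le_ne_top (hBfin _ (hs k)) ?_
    exact h4 _ _ x _ _ inter_subset_right le_rfl
  · intro k hk r hr
    set s : ℝ := (1 / 2 : ℝ) ^ (k + 1) with hsdef
    have hs0 : 0 < s := hs _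
    rw [hsucc k, ← hsdef] at hr
    have hr0 : 0 < r := hs0.trans_le hr.1
    have hrr1 : r < r1 := hr.2.trans (by rw [hsdef, ← hsucc k]; exact (hsk k hk).1)
    have hsr2 : s < r2 := (hsk (k + 1) (by omega)).2
    set A := capB μ p (E ∩ ball x s) x (2 * s) with hA
    set m := μ (ball x s) with hm
    have hm0 : m ≠ 0 := hmpos s hs0
    have hmt : m ≠ ∞ := hmfin s
    have hBr0 : capB μ p (ball x r) x (2 * r) ≠ 0 := by
      intro h0
      have := hlb r hr0 hrr1 univ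
      rw [univ_inter, h0, mul_zero] at this
      exact hmpos r hr0 (le_zero_iff.1 this)
    rw [ENNReal.le_div_iff_mul_le (Or.inl hBr0) (Or.inl (hBfin r hr0))]
    have e1 : A ≤ ENNReal.ofReal K3 * capB μ p (E ∩ ball x r) x (2 * r) := by
      refine (hcmp s hs0 hsr2 E).trans ?_
      gcongr
      refine h4 _ _ x _ _ (inter_subset_inter_right _ (ball_subset_ball hr.1)) ?_
      linarith [hr.2]
    have e2 : capB μ p (ball x r) x (2 * r) ≤
        ENNReal.ofReal (K1 / s ^ p) * (ENNReal.ofReal D * m) := by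
      refine (hub x r hr0).trans ?_
      gcongr
      · exact hr.1
      · exact (measure_mono (ball_subset_ball hr.2.le)).trans (hD.dbl x s hs0)
    have hsp : 0 < s ^ p := Real.rpow_pos_of_pos hs0 p
    have e3 : ENNReal.ofReal (s ^ p) * ENNReal.ofReal (K1 / s ^ p) = ENNReal.ofReal K1 := by
      rw [← ENNReal.ofReal_mul hsp.le]
      congr 1
      field_simp
    have haa : aa μ p E x (k + 1) = A * ENNReal.ofReal (s ^ p) / m := rfl
    rw [haa]
    calc (ENNReal.ofReal (K1 * D * K3))⁻¹ * (A * ENNReal.ofReal (s ^ p) / m) *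
          capB μ p (ball x r) x (2 * r)
        ≤ (ENNReal.ofReal (K1 * D * K3))⁻¹ * ((ENNReal.ofReal K3 *
            capB μ p (E ∩ ball x r) x (2 * r)) * ENNReal.ofReal (s ^ p) / m) *
          (ENNReal.ofReal (K1 / s ^ p) * (ENNReal.ofReal D * m)) := by gcongr
      _ = (ENNReal.ofReal (K1 * D * K3))⁻¹ * (ENNReal.ofReal K3 *
            (ENNReal.ofReal (s ^ p) * ENNReal.ofReal (K1 / s ^ p)) * ENNReal.ofReal D) *
            capB μ p (E ∩ ball x r) x (2 * r) * (m⁻¹ * m) := by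
          rw [div_eq_mul_inv]; ring
      _ = (ENNReal.ofReal (K1 * D * K3))⁻¹ * ENNReal.ofReal (K1 * D * K3) *
            capB μ p (E ∩ ball x r) x (2 * r) := by
          rw [e3, ENNReal.inv_mul_cancel hm0 hmt, mul_one, ENNReal.ofReal_mul (by positivity),
            ENNReal.ofReal_mul hK1.le]
          ring
      _ = capB μ p (E ∩ ball x r) x (2 * r) := by
          rw [ENNReal.inv_mul_cancel _ ENNReal.ofReal_ne_top, one_mul]
          rw [Ne, ENNReal.ofReal_eq_zero]; push Not; positivity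
      _ ≤ _ := le_rfl
  · intro k hk r hr
    set s : ℝ := (1 / 2 : ℝ) ^ k with hsdef
    have hs0 : 0 < s := hs _
    have hhalf : (1 / 2 : ℝ) ^ (k + 1) = s / 2 := by rw [pow_succ]; ring
    rw [hhalf] at hr
    have hr0 : 0 < r := by linarith [hr.1]
    have hrr1 : r < r1 := hr.2.trans_lt (hsk k hk).1
    have hrr2 : r < r2 := hr.2.trans_lt (hsk k hk).2
    set A := capB μ p (E ∩ ball x s) x (2 * s) with hA
    set m := μ (ball x s) with hm
    have hm0 : m ≠ 0 := hmpos s hs0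
    have hmt : m ≠ ∞ := hmfin s
    refine ENNReal.div_le_of_le_mul ?_
    have e1 : capB μ p (E ∩ ball x r) x (2 * r) ≤ ENNReal.ofReal K3 * A := by
      refine (hcmp r hr0 hrr2 E).trans ?_
      gcongr
      refine h4 _ _ x _ _ (inter_subset_inter_right _ (ball_subset_ball hr.2)) ?_
      linarith [hr.1]
    have e2 : m ≤ ENNReal.ofReal D * (ENNReal.ofReal (K2 * s ^ p) *
        capB μ p (ball x r) x (2 * r)) := by
      refine (measure_mono (ball_subset_ball (by linarith [hr.1] : s ≤ 2 * r))).trans ?_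
      refine (hD.dbl x r hr0).trans ?_
      gcongr
      have := hlb r hr0 hrr1 univ
      rw [univ_inter] at this
      refine this.trans ?_
      gcongr
      exact hr.2
    have hsp : 0 < s ^ p := Real.rpow_pos_of_pos hs0 p
    have haa : aa μ p E x k = A * ENNReal.ofReal (s ^ p) / m := rfl
    rw [haa]
    calc capB μ p (E ∩ ball x r) x (2 * r) ≤ ENNReal.ofReal K3 * A := e1
      _ = ENNReal.ofReal K3 * A * (m⁻¹ * m) := by rw [ENNReal.inv_mul_cancel hm0 hmt, mul_one]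
      _ ≤ ENNReal.ofReal K3 * A * (m⁻¹ * (ENNReal.ofReal D * (ENNReal.ofReal (K2 * s ^ p) *
          capB μ p (ball x r) x (2 * r)))) := by gcongr
      _ = ENNReal.ofReal (K3 * (K2 * D)) * (A * ENNReal.ofReal (s ^ p) / m) *
          capB μ p (ball x r) x (2 * r) := by
          rw [div_eq_mul_inv, ENNReal.ofReal_mul hK3.le, ENNReal.ofReal_mul hK2.le,
            ENNReal.ofReal_mul hK2.le]
          ring
  · intro r hr
    refine ENNReal.div_le_of_le_mul ?_
    rw [one_mul]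
    exact h4 _ _ x _ _ inter_subset_right le_rfl

end Pool.Agent.W636.FD
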